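import Pool.Agent.Helper17.RZF.Perf
import Pool.Agent.Helper17.RZF.Cech4
import Pool.Agent.Helper17.RZF.Fin

/-!
# MP_77656e_ag, question 1: full negative answer

For every algebraically closed field `k` of characteristic different from 2 there are an integral
projective scheme over `k` which is not rational and a finite-dimensional DG algebra `R` over `k` such
that the DG category of perfect complexes on the scheme (in its Cech enhancement) is quasi-equivalent to
the DG category of perfect right DG modules over `R`.
-/

set_option autoImplicit false

namespace Pool.Agent.Results.MP_77656e_ag.NonRational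

open Pool.Agent.Helper17.RZF Pool.Agent.Helper17.RZ.Sch

universe u

theorem result : ∀ (k : Type u) [Field k] [IsAlgClosed k], (2 : k) ≠ 0 →
    ∃ (X : CSch.{u} k) (R : DGAlg.{u, u} k), IsProjective X.f ∧ ¬ IsRational X.f ∧ R.FinDim ∧
      QuasiEquivalent (Perf (cech X)) (Perf (oneObj.{u, u + 1, u} R)) :=
  Pool.Agent.Helper17.RZF.Tr.main4T

end Pool.Agent.Results.MP_77656e_ag.NonRational
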